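import Pool.Agent.THS.StmtsG

/-! Squad THS, row SPE (period of T). -/

namespace Pool.Agent.THS.H94

open scoped BigOperators

theorem spe : SpeStatement := by
  intro g K _ φ θ ℓ m e f N T hθ hℓ hm he hf hef hper hT
  have hα0 : m ^ ((N : ℤ) ^ 2) * e ≠ 0 := mul_ne_zero (zpow_ne_zero _ hm) he
  have hβ0 : m ^ (2 * (N : ℤ)) * f ≠ 0 := mul_ne_zero (zpow_ne_zero _ hm) hf
  have key : ∀ (k : ℤ) c, φ (T (k + N) c)
      = (m ^ ((N : ℤ) ^ 2) * e) * (m ^ (2 * (N : ℤ)) * f) ^ k * φ (T k c) := by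
    intro k c
    rw [hT, hT, hper]
    have h1 : m ^ ((k + (N : ℤ)) ^ 2) = m ^ (k ^ 2) * (m ^ (2 * (N : ℤ))) ^ k * m ^ ((N : ℤ) ^ 2) := by
      rw [← zpow_mul, ← zpow_add₀ hm, ← zpow_add₀ hm]
      congr 1
      ring
    rw [h1, mul_zpow]
    ring
  have hne : ∀ k c, θ k c ≠ 0 → φ (T k c) ≠ 0 := by
    intro k c h
    rw [hT]
    exact mul_ne_zero (mul_ne_zero hℓ (zpow_ne_zero _ hm)) h
  obtain ⟨c0, hc0⟩ := hθ 0
  obtain ⟨c1, hc1⟩ := hθ 1
  have h0 := hne 0 c0 hc0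
  have h1 := hne 1 c1 hc1
  have hA : φ (T (0 + N) c0 / T 0 c0) = m ^ ((N : ℤ) ^ 2) * e := by
    rw [map_div₀, key 0 c0, zpow_zero, mul_one, mul_div_assoc, div_self h0, mul_one]
  have hAB : φ (T (1 + N) c1 / T 1 c1) = (m ^ ((N : ℤ) ^ 2) * e) * (m ^ (2 * (N : ℤ)) * f) := by
    rw [map_div₀, key 1 c1, zpow_one, mul_div_assoc, div_self h1, mul_one]
  have hB : φ ((T (1 + N) c1 / T 1 c1) / (T (0 + N) c0 / T 0 c0)) = m ^ (2 * (N : ℤ)) * f := by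
    rw [map_div₀, hAB, hA, mul_comm, mul_div_assoc, div_self hα0, mul_one]
  refine ⟨T (0 + N) c0 / T 0 c0, (T (1 + N) c1 / T 1 c1) / (T (0 + N) c0 / T 0 c0), ?_, ?_, ?_, ?_⟩
  · intro h
    rw [h, map_zero] at hA
    exact hα0 hA.symm
  · intro h
    rw [h, map_zero] at hB
    exact hβ0 hB.symm
  · apply φ.injective
    rw [map_pow, map_pow, hA, hB, mul_pow, mul_pow, hef]
    congr 1
    rw [← zpow_natCast, ← zpow_natCast, ← zpow_mul, ← zpow_mul]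
    congr 1
    push_cast
    ring
  · intro k c
    apply φ.injective
    rw [key k c, map_mul, map_mul, map_zpow₀, hA, hB]

end Pool.Agent.THS.H94
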